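import Pool.Agent.Helper98.DE.St
import Pool.Agent.Helper12.MA.Lib

/-!
# Project DE, module PLB: planar graphs have at most `3 k - 6` edges (only the minor `K₅` is used)
-/

set_option autoImplicit false

namespace Pool.Agent.Helper29.DE

open Pool.Agent.Helper98.DE
open Pool.Agent.Helper51.AJ (IsMinor Planar Apex ExMinor Con Tch con_singleton con_pair tch_symm)
open Pool.Agent.Helper12.NK (rst Kc cnt)
open Pool.Agent.Helper12.MA (dl Srv nKCA nMNR)

/-- five pairwise touching disjoint connected sets -/
private lemma k5 {V : Type} {H : SimpleGraph V} (hp : Planar H) (A : Fin 5 → Set V)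
    (hc : ∀ i, Con H (A i)) (hd : ∀ i j, i < j → Disjoint (A i) (A j))
    (ht : ∀ i j, i < j → Tch H (A i) (A j)) : False := by
  refine (nMNR V H hp).1 A hc ?_ ?_
  · intro i j hij
    rcases lt_or_gt_of_ne hij with h | h
    · exact hd i j h
    · exact (hd j i h).symm
  · intro i j hij
    rcases lt_or_gt_of_ne hij with h | h
    · exact ht i j h
    · exact tch_symm (ht j i h)

/-- the combinatorics of the neighbours of a vertex of degree at most five -/
private lemma comb {V : Type} [DecidableEq V] (G : SimpleGraph V) [DecidableRel G.Adj]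
    (N : Finset V) (h5 : N.card ≤ 5) (hne : N.Nonempty)
    (h3 : ∀ u ∈ N, 3 ≤ (N.filter fun w => G.Adj u w).card) :
    (∃ a ∈ N, ∃ b ∈ N, ∃ c ∈ N, ∃ d ∈ N, G.Adj a b ∧ G.Adj a c ∧ G.Adj a d ∧ G.Adj b c ∧
      G.Adj b d ∧ G.Adj c d) ∨
    (∃ a ∈ N, ∃ b ∈ N, ∃ c ∈ N, ∃ d ∈ N, ∃ e ∈ N, a ≠ b ∧ c ≠ d ∧ c ≠ e ∧ G.Adj a c ∧ G.Adj a d ∧
      G.Adj a e ∧ G.Adj b c ∧ G.Adj b d ∧ G.Adj b e ∧ G.Adj d e) := by
  by_cases hall : ∀ a ∈ N, ∀ b ∈ N, a ≠ b → G.Adj a b
  · left
    obtain ⟨a, ha⟩ := hne
    obtain ⟨b, hb, c, hc, d, hd, hbc, hbd, hcd⟩ := Finset.two_lt_card.1 (h3 a ha)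
    rw [Finset.mem_filter] at hb hc hd
    exact ⟨a, ha, b, hb.1, c, hc.1, d, hd.1, hb.2, hc.2, hd.2, hall b hb.1 c hc.1 hbc,
      hall b hb.1 d hd.1 hbd, hall c hc.1 d hd.1 hcd⟩
  · right
    push Not at hall
    obtain ⟨a, ha, b, hb, hab, hnab⟩ := hall
    obtain ⟨M, hM⟩ : ∃ M, M = (N.erase a).erase b := ⟨_, rfl⟩
    have hMc : M.card + 2 = N.card := by
      have h1 : b ∈ N.erase a := Finset.mem_erase.2 ⟨fun h => hab h.symm, hb⟩
      have h2 := Finset.card_erase_add_one h1
      have h3' := Finset.card_erase_add_one ha
      rw [hM]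
      omega
    have hMm : ∀ w, w ∈ M ↔ w ≠ b ∧ w ≠ a ∧ w ∈ N := by
      intro w
      rw [hM, Finset.mem_erase, Finset.mem_erase]
    have hsa : (N.filter fun w => G.Adj a w) ⊆ M := by
      intro w hw
      rw [Finset.mem_filter] at hw
      rw [hMm]
      refine ⟨fun h => hnab (h ▸ hw.2), fun h => G.ne_of_adj hw.2 h.symm, hw.1⟩
    have hsb : (N.filter fun w => G.Adj b w) ⊆ M := by
      intro w hw
      rw [Finset.mem_filter] at hw
      rw [hMm]
      refine ⟨fun h => G.ne_of_adj hw.2 h.symm, fun h => hnab (h ▸ hw.2).symm, hw.1⟩
    have hea : (N.filter fun w => G.Adj a w) = M :=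
      Finset.eq_of_subset_of_card_le hsa (by have := h3 a ha; omega)
    have heb : (N.filter fun w => G.Adj b w) = M :=
      Finset.eq_of_subset_of_card_le hsb (by have := h3 b hb; omega)
    have hA : ∀ w ∈ M, G.Adj a w := fun w hw => by
      rw [← hea, Finset.mem_filter] at hw
      exact hw.2
    have hB : ∀ w ∈ M, G.Adj b w := fun w hw => by
      rw [← heb, Finset.mem_filter] at hw
      exact hw.2
    have hMN : ∀ w ∈ M, w ∈ N := fun w hw => ((hMm w).1 hw).2.2
    have hM3 : 3 ≤ M.card := by
      have := h3 a ha
      rw [hea] at this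
      exact this
    obtain ⟨c, hc, d, hd, e, he, hcd, hce, hde⟩ := Finset.two_lt_card.1 hM3
    have hMe : M = {c, d, e} := by
      symm
      refine Finset.eq_of_subset_of_card_le ?_ ?_
      · intro w hw
        simp only [Finset.mem_insert, Finset.mem_singleton] at hw
        rcases hw with h | h | h
        · rw [h]; exact hc
        · rw [h]; exact hd
        · rw [h]; exact he
      · rw [Finset.card_eq_three.2 ⟨c, d, e, hcd, hce, hde, rfl⟩]
        omega
    by_cases h1 : G.Adj c d
    · exact ⟨a, ha, b, hb, e, hMN e he, c, hMN c hc, d, hMN d hd, hab, hce.symm, hde.symm, hA e he,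
        hA c hc, hA d hd, hB e he, hB c hc, hB d hd, h1⟩
    · by_cases h2 : G.Adj c e
      · exact ⟨a, ha, b, hb, d, hMN d hd, c, hMN c hc, e, hMN e he, hab, hcd.symm, hde, hA d hd,
          hA c hc, hA e he, hB d hd, hB c hc, hB e he, h2⟩
      · exfalso
        have hs : (N.filter fun w => G.Adj c w) ⊆ {a, b} := by
          intro w hw
          rw [Finset.mem_filter] at hw
          simp only [Finset.mem_insert, Finset.mem_singleton]
          by_contra hno
          push Not at hno
          have hwM : w ∈ M := (hMm w).2 ⟨hno.2, hno.1, hw.1⟩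
          rw [hMe] at hwM
          simp only [Finset.mem_insert, Finset.mem_singleton] at hwM
          rcases hwM with h | h | h
          · exact G.ne_of_adj hw.2 h.symm
          · exact h1 (h ▸ hw.2)
          · exact h2 (h ▸ hw.2)
        have h4 := Finset.card_le_card hs
        have h5' : ({a, b} : Finset V).card ≤ 2 := Finset.card_le_two
        have := h3 c (hMN c hc)
        omega

theorem hPLB : StPCI → StPLB := by
  classical
  intro hPCI V _
  have main : ∀ k : ℕ, 3 ≤ k → ∀ m : ℕ, ∀ (G : SimpleGraph V) (U : Finset V), U.card = k →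
      pc G U = m → Planar (rst G (U : Set V)) → pc G U + 12 ≤ 6 * k := by
    intro k hk
    induction k, hk using Nat.le_induction with
    | base =>
      intro m G U hU _ _
      have h1 : pc G U ≤ ∑ a ∈ U, 2 := by
        unfold pc
        refine Finset.sum_le_sum ?_
        intro a ha
        have hs : (U.filter fun b => G.Adj a b) ⊆ U.erase a := by
          intro b hb
          rw [Finset.mem_filter] at hb
          exact Finset.mem_erase.2 ⟨fun h => G.ne_of_adj hb.2 h.symm, hb.1⟩
        have h2 := Finset.card_le_card hs
        rw [Finset.card_erase_of_mem ha, hU] at h2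
        exact h2
      rw [Finset.sum_const, hU, smul_eq_mul] at h1
      omega
    | succ k hk ih =>
      intro m
      induction m using Nat.strong_induction_on with
      | _ m ih2 =>
        intro G U hU hm hpl
        by_contra hcon
        push Not at hcon
        obtain ⟨c1, c2, c3, c4, c5, c6⟩ := hPCI V G U
        have hle : pc G U + 10 ≤ 6 * (k + 1) := by
          by_contra h9
          push Not at h9
          obtain ⟨x, hx, y, hy, hxy⟩ : ∃ x ∈ U, ∃ y ∈ U, G.Adj x y := by
            by_contra hno
            push Not at hno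
            have h0 : pc G U = 0 := by
              unfold pc
              refine Finset.sum_eq_zero ?_
              intro a ha
              rw [Finset.card_eq_zero, Finset.filter_eq_empty_iff]
              intro b hb
              exact hno a ha b hb
            omega
          have h1 := c4 x hx y hy hxy
          have h2 := c3 x y
          have hpl' : Planar (rst (dl G x y) (U : Set V)) :=
            (nKCA V G U).2.2.2.2.2.1 (rst (dl G x y) (U : Set V)) (rst G (U : Set V))
              (fun a b h => ⟨h.1.1, h.2⟩) hpl
          have h3 := ih2 (pc (dl G x y) U) (by omega) (dl G x y) U hU rfl hpl'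
          omega
        have ha : ∀ u ∈ U, ∀ v ∈ U, G.Adj u v →
            3 ≤ (U.filter fun w => G.Adj u w ∧ G.Adj v w).card := by
          intro u hu v hv huv
          have h5 := c5 u hu v hv huv
          have hpl' : Planar (rst (cnt G u v) ((U.erase v : Finset V) : Set V)) := by
            rw [Finset.coe_erase]
            exact (nKCA V G U).2.2.2.2.2.2.2 u hu v hv huv hpl
          have hcard : (U.erase v).card = k := by
            rw [Finset.card_erase_of_mem hv, hU]
            rfl
          have h6 := ih _ (cnt G u v) (U.erase v) hcard rfl hpl'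
          omega
        obtain ⟨v, hv, hv5⟩ : ∃ v ∈ U, (U.filter fun b => G.Adj v b).card ≤ 5 := by
          by_contra hno
          push Not at hno
          have h1 : ∑ a ∈ U, 6 ≤ pc G U := by
            unfold pc
            exact Finset.sum_le_sum fun a ha' => hno a ha'
          rw [Finset.sum_const, hU, smul_eq_mul] at h1
          omega
        obtain ⟨N, hN⟩ : ∃ N, N = U.filter fun b => G.Adj v b := ⟨_, rfl⟩
        have hNm : ∀ w, w ∈ N ↔ w ∈ U ∧ G.Adj v w := fun w => by rw [hN, Finset.mem_filter]
        have hN0 : N.Nonempty := by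
          by_contra hemp
          rw [Finset.not_nonempty_iff_eq_empty] at hemp
          have h1 := (hPCI V G (U.erase v)).1 v (Finset.notMem_erase v U)
          rw [Finset.insert_erase hv] at h1
          have h2 : ((U.erase v).filter fun b => G.Adj v b).card = 0 := by
            rw [Finset.card_eq_zero, Finset.filter_eq_empty_iff]
            intro b hb hvb
            have : b ∈ N := (hNm b).2 ⟨Finset.mem_of_mem_erase hb, hvb⟩
            rw [hemp] at this
            simp at this
          rw [h2] at h1
          have hpl' : Planar (rst G ((U.erase v : Finset V) : Set V)) := by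
            refine (nKCA V G U).2.2.2.2.2.1 (rst G ((U.erase v : Finset V) : Set V))
              (rst G (U : Set V)) (fun a b h => ⟨h.1, ?_, ?_⟩) hpl
            · exact Finset.mem_of_mem_erase h.2.1
            · exact Finset.mem_of_mem_erase h.2.2
          have hcard : (U.erase v).card = k := by
            rw [Finset.card_erase_of_mem hv, hU]
            rfl
          have h6 := ih _ G (U.erase v) hcard rfl hpl'
          omega
        have hN3 : ∀ u ∈ N, 3 ≤ (N.filter fun w => G.Adj u w).card := by
          intro u hu
          rw [hNm] at hu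
          have h1 := ha v hv u hu.1 hu.2
          rw [hN, Finset.filter_filter]
          exact h1
        rw [← hN] at hv5
        have hvN : ∀ w ∈ N, v ≠ w := fun w hw => G.ne_of_adj ((hNm w).1 hw).2
        -- adjacency in the restricted graph
        have hr : ∀ x y, x ∈ U → y ∈ U → G.Adj x y → (rst G (U : Set V)).Adj x y :=
          fun x y hx hy h => ⟨h, hx, hy⟩
        rcases comb G N hv5 hN0 hN3 with h | h
        · obtain ⟨a, ha', b, hb, c, hc, d, hd, e1, e2, e3, e4, e5, e6⟩ := h
          have uU := fun w (hw : w ∈ N) => ((hNm w).1 hw).1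
          have uv := fun w (hw : w ∈ N) => ((hNm w).1 hw).2
          refine k5 hpl ![{v}, {a}, {b}, {c}, {d}] ?_ ?_ ?_
          · intro i
            fin_cases i <;> exact con_singleton _ _
          · intro i j hij
            fin_cases i <;> fin_cases j <;>
              first
              | exact absurd hij (by decide)
              | exact Set.disjoint_singleton.2 (hvN _ ha')
              | exact Set.disjoint_singleton.2 (hvN _ hb)
              | exact Set.disjoint_singleton.2 (hvN _ hc)
              | exact Set.disjoint_singleton.2 (hvN _ hd)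
              | exact Set.disjoint_singleton.2 (G.ne_of_adj e1)
              | exact Set.disjoint_singleton.2 (G.ne_of_adj e2)
              | exact Set.disjoint_singleton.2 (G.ne_of_adj e3)
              | exact Set.disjoint_singleton.2 (G.ne_of_adj e4)
              | exact Set.disjoint_singleton.2 (G.ne_of_adj e5)
              | exact Set.disjoint_singleton.2 (G.ne_of_adj e6)
          · intro i j hij
            fin_cases i <;> fin_cases j <;>
              first
              | exact absurd hij (by decide)
              | exact ⟨v, rfl, a, rfl, hr _ _ hv (uU a ha') (uv a ha')⟩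
              | exact ⟨v, rfl, b, rfl, hr _ _ hv (uU b hb) (uv b hb)⟩
              | exact ⟨v, rfl, c, rfl, hr _ _ hv (uU c hc) (uv c hc)⟩
              | exact ⟨v, rfl, d, rfl, hr _ _ hv (uU d hd) (uv d hd)⟩
              | exact ⟨a, rfl, b, rfl, hr _ _ (uU a ha') (uU b hb) e1⟩
              | exact ⟨a, rfl, c, rfl, hr _ _ (uU a ha') (uU c hc) e2⟩
              | exact ⟨a, rfl, d, rfl, hr _ _ (uU a ha') (uU d hd) e3⟩
              | exact ⟨b, rfl, c, rfl, hr _ _ (uU b hb) (uU c hc) e4⟩
              | exact ⟨b, rfl, d, rfl, hr _ _ (uU b hb) (uU d hd) e5⟩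
              | exact ⟨c, rfl, d, rfl, hr _ _ (uU c hc) (uU d hd) e6⟩
        · obtain ⟨a, ha', b, hb, c, hc, d, hd, e, he, hab, hcd, hce, e1, e2, e3, e4, e5, e6, e7⟩ := h
          have uU := fun w (hw : w ∈ N) => ((hNm w).1 hw).1
          have uv := fun w (hw : w ∈ N) => ((hNm w).1 hw).2
          have hac : a ∈ ({a, c} : Set V) := Or.inl rfl
          have hca : c ∈ ({a, c} : Set V) := Or.inr rfl
          have dsj : ∀ x : V, x ≠ a → x ≠ c → Disjoint ({a, c} : Set V) {x} := by
            intro x hxa hxc
            rw [Set.disjoint_singleton_right]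
            rintro (h | h)
            · exact hxa h
            · exact hxc h
          refine k5 hpl ![{a, c}, {v}, {b}, {d}, {e}] ?_ ?_ ?_
          · intro i
            fin_cases i <;>
              first
              | exact con_pair (hr _ _ (uU a ha') (uU c hc) e1)
              | exact con_singleton _ _
          · intro i j hij
            fin_cases i <;> fin_cases j <;>
              first
              | exact absurd hij (by decide)
              | exact dsj v (hvN _ ha') (hvN _ hc)
              | exact dsj b hab.symm (G.ne_of_adj e4)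
              | exact dsj d (G.ne_of_adj e2).symm hcd.symm
              | exact dsj e (G.ne_of_adj e3).symm hce.symm
              | exact Set.disjoint_singleton.2 (hvN _ hb)
              | exact Set.disjoint_singleton.2 (hvN _ hd)
              | exact Set.disjoint_singleton.2 (hvN _ he)
              | exact Set.disjoint_singleton.2 (G.ne_of_adj e5)
              | exact Set.disjoint_singleton.2 (G.ne_of_adj e6)
              | exact Set.disjoint_singleton.2 (G.ne_of_adj e7)
          · intro i j hij
            fin_cases i <;> fin_cases j <;>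
              first
              | exact absurd hij (by decide)
              | exact ⟨a, hac, v, rfl, hr _ _ (uU a ha') hv (uv a ha').symm⟩
              | exact ⟨c, hca, b, rfl, hr _ _ (uU c hc) (uU b hb) e4.symm⟩
              | exact ⟨a, hac, d, rfl, hr _ _ (uU a ha') (uU d hd) e2⟩
              | exact ⟨a, hac, e, rfl, hr _ _ (uU a ha') (uU e he) e3⟩
              | exact ⟨v, rfl, b, rfl, hr _ _ hv (uU b hb) (uv b hb)⟩
              | exact ⟨v, rfl, d, rfl, hr _ _ hv (uU d hd) (uv d hd)⟩
              | exact ⟨v, rfl, e, rfl, hr _ _ hv (uU e he) (uv e he)⟩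
              | exact ⟨b, rfl, d, rfl, hr _ _ (uU b hb) (uU d hd) e5⟩
              | exact ⟨b, rfl, e, rfl, hr _ _ (uU b hb) (uU e he) e6⟩
              | exact ⟨d, rfl, e, rfl, hr _ _ (uU d hd) (uU e he) e7⟩
  intro G U h3 hpl
  exact main U.card h3 _ G U rfl rfl hpl

end Pool.Agent.Helper29.DE
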